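import Mathlib
import Pool.Agent.Lib.MP_f8d220_an.FinalNorm

set_option autoImplicit false

namespace Pool.Agent.Results.MP_f8d220_an.UltraflatFullSequence

open Filter Topology Polynomial

/-- `P` belongs to `K_n`: it has degree `n` and all its coefficients `a_0, …, a_n` have modulus `1`. -/
def IsUnimodular (n : ℕ) (P : ℂ[X]) : Prop :=
  P.natDegree = n ∧ ∀ k ≤ n, ‖P.coeff k‖ = 1

/-- `R(Q)`: the maximum of `|Q|` over the unit circle divided by its minimum there. -/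
noncomputable def flatness (Q : ℂ[X]) : ℝ :=
  (⨆ z : Metric.sphere (0 : ℂ) 1, ‖Q.eval (z : ℂ)‖) /
    (⨅ z : Metric.sphere (0 : ℂ) 1, ‖Q.eval (z : ℂ)‖)

theorem poly_facts (n : ℕ) (a : ℕ → ℂ) (ha : ∀ k, ‖a k‖ = 1) :
    IsUnimodular n (∑ k ∈ Finset.range (n + 1), C (a k) * X ^ k) ∧
    ∀ z : ℂ, (derivative (∑ k ∈ Finset.range (n + 1), C (a k) * X ^ k)).eval z
      = ∑ k ∈ Finset.range (n + 1), (k : ℂ) * a k * z ^ (k - 1) := by
  have hcoeff : ∀ j, (∑ k ∈ Finset.range (n + 1), C (a k) * X ^ k : ℂ[X]).coeff j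
      = if j ≤ n then a j else 0 := by
    intro j
    rw [finsetSum_coeff]
    simp only [coeff_C_mul, coeff_X_pow, mul_ite, mul_one, mul_zero]
    rw [Finset.sum_ite_eq]
    by_cases hj : j ≤ n
    · rw [if_pos (Finset.mem_range.mpr (by omega)), if_pos hj]
    · rw [if_neg (by rw [Finset.mem_range]; omega), if_neg hj]
  refine ⟨⟨?_, ?_⟩, ?_⟩
  · apply natDegree_eq_of_le_of_coeff_ne_zero
    · rw [natDegree_le_iff_coeff_eq_zero]
      intro j hj
      rw [hcoeff, if_neg (not_le.mpr hj)]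
    · rw [hcoeff, if_pos le_rfl]
      intro h0
      have := ha n
      rw [h0, norm_zero] at this
      exact zero_ne_one this
  · intro k hk
    rw [hcoeff, if_pos hk, ha]
  · intro z
    rw [derivative_sum, eval_finsetSum]
    refine Finset.sum_congr rfl fun k _ => ?_
    rw [derivative_C_mul_X_pow, eval_mul, eval_C, eval_pow, eval_X]
    ring

theorem flatness_close (Q : ℂ[X]) (S ε : ℝ) (hS : 0 < S) (hε : ε < 1)
    (h : ∀ z : ℂ, ‖z‖ = 1 → |‖Q.eval z‖ - S| ≤ ε * S) :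
    1 ≤ flatness Q ∧ flatness Q ≤ (1 + ε) / (1 - ε) := by
  have hne : Nonempty (Metric.sphere (0 : ℂ) 1) := ⟨⟨1, by simp⟩⟩
  have hup : ∀ z : Metric.sphere (0 : ℂ) 1, ‖Q.eval (z : ℂ)‖ ≤ (1 + ε) * S := by
    intro z
    have hz : ‖(z : ℂ)‖ = 1 := by simp
    have := (abs_le.mp (h z hz)).2
    linarith
  have hlo : ∀ z : Metric.sphere (0 : ℂ) 1, (1 - ε) * S ≤ ‖Q.eval (z : ℂ)‖ := by
    intro z
    have hz : ‖(z : ℂ)‖ = 1 := by simp
    have := (abs_le.mp (h z hz)).1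
    linarith
  have hba : BddAbove (Set.range fun z : Metric.sphere (0 : ℂ) 1 => ‖Q.eval (z : ℂ)‖) :=
    ⟨(1 + ε) * S, by rintro _ ⟨z, rfl⟩; exact hup z⟩
  have hbb : BddBelow (Set.range fun z : Metric.sphere (0 : ℂ) 1 => ‖Q.eval (z : ℂ)‖) :=
    ⟨0, by rintro _ ⟨z, rfl⟩; exact norm_nonneg _⟩
  have h1 : (1 - ε) * S ≤ ⨅ z : Metric.sphere (0 : ℂ) 1, ‖Q.eval (z : ℂ)‖ := le_ciInf hlo
  have h2 : ⨆ z : Metric.sphere (0 : ℂ) 1, ‖Q.eval (z : ℂ)‖ ≤ (1 + ε) * S := ciSup_le hup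
  have hpos : 0 < (1 - ε) * S := mul_pos (by linarith) hS
  have h3 : 0 < ⨅ z : Metric.sphere (0 : ℂ) 1, ‖Q.eval (z : ℂ)‖ := lt_of_lt_of_le hpos h1
  have h4 : (⨅ z : Metric.sphere (0 : ℂ) 1, ‖Q.eval (z : ℂ)‖)
      ≤ ⨆ z : Metric.sphere (0 : ℂ) 1, ‖Q.eval (z : ℂ)‖ :=
    (ciInf_le hbb hne.some).trans (le_ciSup hba hne.some)
  constructor
  · rw [flatness, le_div_iff₀ h3, one_mul]; exact h4
  · rw [flatness, div_le_div_iff₀ h3 (by linarith)]
    have h5 : 0 ≤ (1 + ε) := by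
      have := (hlo hne.some).trans (hup hne.some)
      by_contra hcon
      rw [not_le] at hcon
      nlinarith
    calc (⨆ z : Metric.sphere (0 : ℂ) 1, ‖Q.eval (z : ℂ)‖) * (1 - ε)
        ≤ ((1 + ε) * S) * (1 - ε) := mul_le_mul_of_nonneg_right h2 (by linarith)
      _ = (1 + ε) * ((1 - ε) * S) := by ring
      _ ≤ (1 + ε) * ⨅ z : Metric.sphere (0 : ℂ) 1, ‖Q.eval (z : ℂ)‖ :=
          mul_le_mul_of_nonneg_left h1 h5

/-- There is a sequence of unimodular polynomials, one of **every** degree `n`, whose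
derivatives are ultraflat. -/
theorem result :
    ∃ P : ℕ → ℂ[X], (∀ n, IsUnimodular n (P n)) ∧
      (∀ᶠ n in atTop, ∀ z : ℂ, ‖z‖ = 1 → (derivative (P n)).eval z ≠ 0) ∧
      Tendsto (fun n => flatness (derivative (P n))) atTop (𝓝 1) := by
  have key := fun j : ℕ => Pool.Agent.Lib.MP_f8d220_an.ultraflat_normalised
    (1 / ((j : ℝ) + 2)) (by positivity)
  choose N hN using key
  -- a nondecreasing choice of thresholds
  let M : ℕ → ℕ := fun j => ∑ i ∈ Finset.range (j + 1), (N i + 1)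
  have hMN : ∀ j, N j ≤ M j := by
    intro j
    have := Finset.single_le_sum (f := fun i => N i + 1) (fun i _ => Nat.zero_le _)
      (Finset.mem_range.mpr (Nat.lt_succ_self j))
    exact (Nat.le_succ _).trans this
  have hMstrict : StrictMono M := by
    apply strictMono_nat_of_lt_succ
    intro j
    have h1 : M (j + 1) = M j + (N (j + 1) + 1) := by
      simp only [M]
      rw [Finset.sum_range_succ]
    omega
  -- for every n choose the best level available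
  have hchoice : ∀ n : ℕ, ∃ a : ℕ → ℂ, (∀ k, ‖a k‖ = 1) ∧
      ∀ j, j ≤ n → (∀ i, i ≤ n → M i ≤ n → i ≤ j) → M j ≤ n → ∀ z : ℂ, ‖z‖ = 1 →
        |‖∑ k ∈ Finset.range (n + 1), (k : ℂ) * a k * z ^ (k - 1)‖ - √((n : ℝ) ^ 3 / 3)| ≤
          (1 / ((j : ℝ) + 2)) * √((n : ℝ) ^ 3 / 3) := by
    intro n
    by_cases hex : ∃ j, j ≤ n ∧ (∀ i, i ≤ n → M i ≤ n → i ≤ j) ∧ M j ≤ n
    · obtain ⟨j, hj1, hj2, hj3⟩ := hex
      obtain ⟨a, ha, hflat⟩ := hN j n ((hMN j).trans hj3)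
      refine ⟨a, ha, ?_⟩
      intro j' hj'1 hj'2 hj'3
      have : j' = j := le_antisymm (hj2 j' hj'1 hj'3) (hj'2 j hj1 hj3)
      rw [this]
      exact hflat
    · refine ⟨fun _ => 1, by simp, ?_⟩
      intro j hj1 hj2 hj3
      exact absurd ⟨j, hj1, hj2, hj3⟩ hex
  choose a ha hflat using hchoice
  have hev : ∀ j : ℕ, ∀ n, M j ≤ n → ∀ z : ℂ, ‖z‖ = 1 →
      |‖∑ k ∈ Finset.range (n + 1), (k : ℂ) * a n k * z ^ (k - 1)‖ - √((n : ℝ) ^ 3 / 3)| ≤
          (1 / ((j : ℝ) + 2)) * √((n : ℝ) ^ 3 / 3) := by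
    intro j n hjn z hz
    -- the maximal level
    have hbound : ∀ i, M i ≤ n → i ≤ n := fun i hi => (hMstrict.id_le i).trans hi
    obtain ⟨j', hj'⟩ : ∃ j', IsGreatest {i | M i ≤ n} j' := by
      have hne : ({i | M i ≤ n} : Set ℕ).Nonempty := ⟨j, hjn⟩
      have hfin : ({i | M i ≤ n} : Set ℕ).Finite :=
        (Set.finite_Iic n).subset fun i hi => hbound i hi
      obtain ⟨m, hm, hmax⟩ := hfin.exists_maximalFor id _ hne
      refine ⟨m, hm, fun i hi => ?_⟩
      rcases le_total i m with h | h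
      · exact h
      · exact hmax hi h
    have hjj' : j ≤ j' := hj'.2 hjn
    refine (hflat n j' (hbound j' hj'.1) (fun i _ hi => hj'.2 hi) hj'.1 z hz).trans ?_
    apply mul_le_mul_of_nonneg_right _ (Real.sqrt_nonneg _)
    apply one_div_le_one_div_of_le (by positivity)
    have : (j : ℝ) ≤ j' := by exact_mod_cast hjj'
    linarith
  refine ⟨fun n => ∑ k ∈ Finset.range (n + 1), C (a n k) * X ^ k,
    fun n => (poly_facts n (a n) (ha n)).1, ?_, ?_⟩
  · filter_upwards [eventually_ge_atTop (M 0), eventually_ge_atTop 1] with n hn hn1 z hz h0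
    have h1 := hev 0 n hn z hz
    rw [(poly_facts n (a n) (ha n)).2] at h0
    rw [h0, norm_zero, zero_sub, abs_neg, abs_of_nonneg (Real.sqrt_nonneg _)] at h1
    have hn0 : (0 : ℝ) < n := by exact_mod_cast hn1
    have hS : 0 < √((n : ℝ) ^ 3 / 3) := by positivity
    have h2 : (1 / (((0 : ℕ) : ℝ) + 2)) = 1 / 2 := by norm_num
    rw [h2] at h1
    linarith
  · rw [Metric.tendsto_atTop]
    intro ε hε
    obtain ⟨j, hj⟩ := exists_nat_gt (4 / ε)
    refine ⟨max (M j) 1, fun n hn => ?_⟩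
    have hn1 : 1 ≤ n := (le_max_right _ _).trans hn
    have hn0 : (0 : ℝ) < n := by exact_mod_cast hn1
    have hS : 0 < √((n : ℝ) ^ 3 / 3) := by positivity
    have hj0 : (0 : ℝ) ≤ j := Nat.cast_nonneg j
    set e : ℝ := 1 / ((j : ℝ) + 2) with he
    have he0 : 0 < e := by positivity
    have he1 : e ≤ 1 / 2 := by
      rw [he]; apply one_div_le_one_div_of_le (by norm_num); linarith
    have hclose := flatness_close (derivative (∑ k ∈ Finset.range (n + 1), C (a n k) * X ^ k))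
      (√((n : ℝ) ^ 3 / 3)) e hS (by linarith) (by
        intro z hz
        rw [(poly_facts n (a n) (ha n)).2]
        exact hev j n ((le_max_left _ _).trans hn) z hz)
    rw [Real.dist_eq, abs_of_nonneg (by linarith [hclose.1])]
    have h1 : (1 + e) / (1 - e) ≤ 1 + 4 * e := by
      rw [div_le_iff₀ (by linarith)]; nlinarith
    have h2 : 4 * e < ε := by
      have h3 : 4 / ε < (j : ℝ) + 2 := by linarith
      rw [he, mul_one_div, div_lt_iff₀ (by positivity)]
      rw [div_lt_iff₀ hε] at h3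
      linarith
    linarith [hclose.2]

end Pool.Agent.Results.MP_f8d220_an.UltraflatFullSequence
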